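import Pool.Agent.Lib.MP_a3b3a7_nt.Final

/-!
Residue patterns of consecutive primes: a positive proportion of the patterns has a share of
the predicted order of magnitude.
-/

namespace Pool.Agent.Lib.MP_a3b3a7_nt.Old.Typical

open Pool.Agent.Lib.MP_a3b3a7_nt

theorem result : ∃ c C : ℝ, 0 < c ∧ ∀ q : ℕ, 0 < q → ∃ X : ℝ, ∀ x : ℝ, X ≤ x →
    ∃ B : Finset ((ZMod q)ˣ × (ZMod q)ˣ), c * (q.totient : ℝ) ^ 2 ≤ B.card ∧
      ∀ s ∈ B, c / (q.totient : ℝ) ^ 2 ≤ share q s.1 s.2 x ∧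
        share q s.1 s.2 x ≤ C / (q.totient : ℝ) ^ 2 := by
  classical
  refine ⟨1 / (16 * 40000 ^ 2), 4 * 40000 ^ 2, by norm_num, fun q hq => ?_⟩
  have : NeZero q := ⟨hq.ne'⟩
  refine Filter.eventually_atTop.1 (share_bounds.mono fun x h => ⟨_, typical
    (by exact_mod_cast Nat.totient_pos.2 hq) (by norm_num) ?_ h.2 h.1,
    fun s hs => (Finset.mem_filter.1 hs).2⟩)
  rw [Fintype.card_prod, ZMod.card_units_eq_totient, sq, Nat.cast_mul]

end Pool.Agent.Lib.MP_a3b3a7_nt.Old.Typical
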